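import Pool.Agent.helper91.RB.Spec2

set_option autoImplicit false

/-! MP_24e2e7_nt, row rb:TOW (helper38): the tower. -/

namespace Pool.Agent.RB

open NumberField IsDedekindDomain Module
open scoped nonZeroDivisors Real Classical

section aux

variable {F k K : Type} [Field F] [NumberField F] [Field k] [NumberField k] [Field K] [NumberField K]

theorem TOW_nm_two (p : HOS F) : 2 ≤ nm p := by
  have h1 : nm p ≠ 0 := by
    unfold nm
    rw [Ne, Ideal.absNorm_eq_zero_iff]
    exact p.ne_bot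
  have h2 : nm p ≠ 1 := by
    unfold nm
    rw [Ne, Ideal.absNorm_eq_one_iff]
    exact p.isPrime.ne_top
  omega

theorem TOW_mem_act (σ : K ≃+* K) (P : HOS K) (x : 𝓞 K) :
    x ∈ (act σ P).asIdeal ↔ (RingOfIntegers.mapRingEquiv σ).symm x ∈ P.asIdeal := Iff.rfl

theorem TOW_act_comm (σ τ : K ≃+* K) (h : ∀ x, σ (τ x) = τ (σ x)) (P : HOS K) :
    act σ (act τ P) = act τ (act σ P) := by
  ext x
  rw [TOW_mem_act, TOW_mem_act, TOW_mem_act, TOW_mem_act]
  have e : (RingOfIntegers.mapRingEquiv τ).symm ((RingOfIntegers.mapRingEquiv σ).symm x) =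
      (RingOfIntegers.mapRingEquiv σ).symm ((RingOfIntegers.mapRingEquiv τ).symm x) := by
    apply RingOfIntegers.ext
    rw [RingOfIntegers.mapRingEquiv_symm_apply, RingOfIntegers.mapRingEquiv_symm_apply,
      RingOfIntegers.mapRingEquiv_symm_apply, RingOfIntegers.mapRingEquiv_symm_apply]
    apply τ.injective
    apply σ.injective
    rw [RingEquiv.apply_symm_apply, RingEquiv.apply_symm_apply, h, RingEquiv.apply_symm_apply,
      RingEquiv.apply_symm_apply]
  rw [e]

theorem TOW_act_inj (σ : K ≃+* K) {P Q : HOS K} (h : act σ P = act σ Q) : P = Q :=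
  (HeightOneSpectrum.equivOfRingEquiv (RingOfIntegers.mapRingEquiv σ)).injective h

theorem TOW_trans [Algebra F K] [IsGalois F K] (P Q : HOS K) (h : P.under (𝓞 F) = Q.under (𝓞 F)) :
    ∃ σ : K ≃ₐ[F] K, act (σ : K ≃+* K) P = Q := by
  have hP : P.asIdeal.LiesOver (P.under (𝓞 F)).asIdeal := ⟨rfl⟩
  have hQ : Q.asIdeal.LiesOver (P.under (𝓞 F)).asIdeal := ⟨by rw [h]; rfl⟩
  have h1 := P.isPrime
  have h2 := Q.isPrime
  obtain ⟨σ, hσ⟩ := Ideal.exists_smul_eq_of_isGaloisGroup (P.under (𝓞 F)).asIdeal P.asIdeal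
    Q.asIdeal (K ≃ₐ[F] K)
  refine ⟨σ, ?_⟩
  ext x
  rw [TOW_mem_act, ← hσ, Ideal.mem_pointwise_smul_iff_inv_smul_mem]
  have e : (RingOfIntegers.mapRingEquiv (σ : K ≃+* K)).symm x = σ⁻¹ • x := by
    apply RingOfIntegers.ext
    rw [RingOfIntegers.mapRingEquiv_symm_apply]
    rfl
  rw [e]

omit [NumberField F] [NumberField k] in
theorem TOW_under [Algebra F k] [Algebra k K] [Algebra F K] [IsScalarTower F k K] (P : HOS K) :
    (P.under (𝓞 k)).under (𝓞 F) = P.under (𝓞 F) := by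
  apply HeightOneSpectrum.ext
  change (P.asIdeal.under (𝓞 k)).under (𝓞 F) = P.asIdeal.under (𝓞 F)
  exact Ideal.under_under P.asIdeal

end aux

/-- the characters which are trivial at `c` are the inflations -/
theorem TOW_even (F k K : Type) [Field F] [NumberField F] [Field k] [NumberField k] [Field K]
    [NumberField K] [Algebra F k] [Algebra k K] [Algebra F K] [IsScalarTower F k K]
    [IsAbelianGalois F k] [IsAbelianGalois F K] [Algebra.IsQuadraticExtension k K]
    (c : K ≃ₐ[F] K) (hc : c ≠ 1) (hck : ∀ x : k, c (algebraMap k K x) = algebraMap k K x)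
    (f : ((K ≃ₐ[F] K) →* ℂˣ) → ℂ) :
    ∏ χ ∈ Finset.univ.filter (fun χ : (K ≃ₐ[F] K) →* ℂˣ => ¬ χ c = -1), f χ =
      ∏ ψ : (k ≃ₐ[F] k) →* ℂˣ,
        f (ψ.comp (AlgEquiv.restrictNormalHom k : (K ≃ₐ[F] K) →* (k ≃ₐ[F] k))) := by
  classical
  have hsurj : Function.Surjective (AlgEquiv.restrictNormalHom k : (K ≃ₐ[F] K) →* (k ≃ₐ[F] k)) :=
    AlgEquiv.restrictNormalHom_surjective K
  -- the group of `K / k`
  have hcard : Nat.card (K ≃ₐ[k] K) = 2 := by
    rw [IsGalois.card_aut_eq_finrank, Algebra.IsQuadraticExtension.finrank_eq_two]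
  let lift : ∀ σ : K ≃ₐ[F] K, (∀ x : k, σ (algebraMap k K x) = algebraMap k K x) → (K ≃ₐ[k] K) :=
    fun σ h => AlgEquiv.ofRingEquiv (f := (σ : K ≃+* K)) h
  have hlift : ∀ σ h x, lift σ h x = σ x := fun σ h x => rfl
  have hc' : lift c hck ≠ 1 := by
    intro h
    apply hc
    ext x
    rw [← hlift c hck x, h]
    rfl
  have hker : ∀ σ : K ≃ₐ[F] K, AlgEquiv.restrictNormalHom k σ = 1 → σ = 1 ∨ σ = c := by
    intro σ hσ
    have h1 : ∀ x : k, σ (algebraMap k K x) = algebraMap k K x := by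
      intro x
      have h2 := AlgEquiv.restrictNormal_commutes σ k x
      have h3 : σ.restrictNormal k = 1 := hσ
      rw [h3] at h2
      exact h2.symm
    obtain ⟨y, hy, hy'⟩ := (Nat.card_eq_two_iff' (1 : K ≃ₐ[k] K)).1 hcard
    by_cases h4 : lift σ h1 = 1
    · left
      ext x
      rw [← hlift σ h1 x, h4]
      rfl
    · right
      have h5 : lift σ h1 = lift c hck := (hy' _ h4).trans (hy' _ hc').symm
      ext x
      rw [← hlift σ h1 x, h5]
      rfl
  have hcsq : c * c = 1 := by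
    have h1 : lift c hck * lift c hck = 1 := by
      rw [← sq, ← hcard]
      exact pow_card_eq_one'
    ext x
    have h2 : (lift c hck * lift c hck) x = x := by rw [h1]; rfl
    exact h2
  have hresc : AlgEquiv.restrictNormalHom k c = 1 := by
    ext x
    apply (algebraMap k K).injective
    have h2 := AlgEquiv.restrictNormal_commutes c k x
    rw [hck] at h2
    exact h2
  symm
  apply Finset.prod_nbij
    (fun ψ => ψ.comp (AlgEquiv.restrictNormalHom k : (K ≃ₐ[F] K) →* (k ≃ₐ[F] k)))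
  · intro ψ _
    rw [Finset.mem_filter]
    refine ⟨Finset.mem_univ _, ?_⟩
    rw [MonoidHom.comp_apply, hresc, map_one]
    intro h
    have h1 := congrArg (fun u : ℂˣ => (u : ℂ)) h
    simp only [Units.val_one, Units.val_neg] at h1
    norm_num at h1
  · intro ψ _ ψ' _ h
    exact (MonoidHom.cancel_right hsurj).1 h
  · intro χ hχ
    have hχ' := (Finset.mem_filter.1 (Finset.mem_coe.1 hχ)).2
    have h1 : χ c = 1 := by
      have h2 : χ c * χ c = 1 := by rw [← map_mul, hcsq, map_one]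
      have h3 : ((χ c : ℂˣ) : ℂ) * ((χ c : ℂˣ) : ℂ) = 1 := by
        rw [← Units.val_mul, h2, Units.val_one]
      rcases mul_self_eq_one_iff.1 h3 with h4 | h4
      · exact Units.ext h4
      · exact absurd (Units.ext (by rw [h4]; simp)) hχ'
    have h5 : (AlgEquiv.restrictNormalHom k : (K ≃ₐ[F] K) →* (k ≃ₐ[F] k)).ker ≤ χ.ker := by
      intro σ hσ
      rw [MonoidHom.mem_ker] at hσ ⊢
      rcases hker σ hσ with rfl | rfl
      · exact map_one χ
      · exact h1
    refine ⟨(MonoidHom.liftOfSurjective _ hsurj) ⟨χ, h5⟩, Finset.mem_coe.2 (Finset.mem_univ _), ?_⟩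
    exact MonoidHom.liftOfRightInverse_comp _ _ _ _
  · intro ψ _
    rfl

theorem TOW (hLOC : LOC_stmt) (hINF : INF_stmt) (hTYP : TYP_stmt) : TOW_stmt := by
  classical
  intro F k K _ _ _ _ _ _ _ _ _ _ _ _ _ c hc hck p
  obtain ⟨f, g, hf, hg, hncg, hnmf, hloc⟩ := hLOC F k p
  obtain ⟨f', g', hf', hg', hncg', hnmf', hloc'⟩ := hLOC F K p
  refine ⟨f, g, hf, hg, hncg, hnmf, ?_⟩
  -- the automorphism over `k`
  let c' : K ≃ₐ[k] K := AlgEquiv.ofRingEquiv (f := (c : K ≃+* K)) hck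
  have hc'1 : c' ≠ 1 := by
    intro h
    apply hc
    ext x
    have h1 : c' x = x := by rw [h]; rfl
    exact h1
  have hcc' : (c' : K ≃+* K) = (c : K ≃+* K) := rfl
  have hT := hTYP k K c' hc'1
  rw [hcc'] at hT
  have hp2 := TOW_nm_two p
  have hpow : ∀ a b : ℕ, nm p ^ a = nm p ^ b → a = b := fun a b h =>
    Nat.pow_right_injective hp2 h
  -- under
  have hunder : ∀ P : HOS K, (P.under (𝓞 k)).under (𝓞 F) = P.under (𝓞 F) := fun P => TOW_under P
  -- commutativity
  have hcomm : ∀ (σ : K ≃ₐ[F] K) (P : HOS K), act (c : K ≃+* K) (act (σ : K ≃+* K) P) =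
      act (σ : K ≃+* K) (act (c : K ≃+* K) P) := by
    intro σ P
    apply TOW_act_comm
    intro x
    have h1 : c * σ = σ * c := IsMulCommutative.is_comm.comm c σ
    exact DFunLike.congr_fun h1 x
  -- all primes above `p` are fixed by `c` or none
  have hfix : ∀ P Q : HOS K, P.under (𝓞 F) = p → Q.under (𝓞 F) = p →
      act (c : K ≃+* K) P = P → act (c : K ≃+* K) Q = Q := by
    intro P Q hP hQ h
    obtain ⟨σ, rfl⟩ := TOW_trans (F := F) P Q (hP.trans hQ.symm)
    rw [hcomm, h]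
  -- the facts about one prime `q`
  have hq : ∀ q : HOS k, q.under (𝓞 F) = p → ∃ P : HOS K, P.under (𝓞 F) = p ∧
      ((ty K q = 1 ∧ act (c : K ≃+* K) P ≠ P ∧ f' = f ∧ {R : HOS K | R.under (𝓞 k) = q}.ncard = 2) ∨
       (ty K q = -1 ∧ act (c : K ≃+* K) P = P ∧ f' = 2 * f ∧
          {R : HOS K | R.under (𝓞 k) = q}.ncard = 1) ∨
       (ty K q = 0 ∧ act (c : K ≃+* K) P = P ∧ f' = f ∧
          {R : HOS K | R.under (𝓞 k) = q}.ncard = 1)) := by
    intro q hqp
    have hnq := hnmf q hqp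
    rcases hT q with ⟨h0, P, P', hne, hset, h1, -, h3, -, -⟩ | ⟨h0, P, hset, h1, h3, -⟩ |
      ⟨h0, P, hset, h1, h3, -⟩
    · have hP : P.under (𝓞 k) = q := by
        have : P ∈ {R : HOS K | R.under (𝓞 k) = q} := by rw [hset]; exact Or.inl rfl
        exact this
      have hPp : P.under (𝓞 F) = p := by rw [← hunder, hP, hqp]
      refine ⟨P, hPp, Or.inl ⟨h0, ?_, ?_, ?_⟩⟩
      · rw [h3]
        exact hne.symm
      · apply hpow
        rw [← hnmf' P hPp, ← hnq, h1]
      · rw [hset, Set.ncard_pair hne]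
    · have hP : P.under (𝓞 k) = q := by
        have : P ∈ {R : HOS K | R.under (𝓞 k) = q} := by rw [hset]; rfl
        exact this
      have hPp : P.under (𝓞 F) = p := by rw [← hunder, hP, hqp]
      refine ⟨P, hPp, Or.inr (Or.inl ⟨h0, h3, ?_, ?_⟩)⟩
      · apply hpow
        rw [← hnmf' P hPp, h1, hnq, ← pow_mul, mul_comm f 2]
      · rw [hset, Set.ncard_singleton]
    · have hP : P.under (𝓞 k) = q := by
        have : P ∈ {R : HOS K | R.under (𝓞 k) = q} := by rw [hset]; rfl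
        exact this
      have hPp : P.under (𝓞 F) = p := by rw [← hunder, hP, hqp]
      refine ⟨P, hPp, Or.inr (Or.inr ⟨h0, h3, ?_, ?_⟩)⟩
      · apply hpow
        rw [← hnmf' P hPp, h1, hnq]
      · rw [hset, Set.ncard_singleton]
  -- a first prime
  have hBne : {q : HOS k | q.under (𝓞 F) = p}.Nonempty := by
    rw [Set.nonempty_iff_ne_empty]
    intro h
    rw [h, Set.ncard_empty] at hncg
    omega
  obtain ⟨q₀, hq₀⟩ := hBne
  -- the number of primes
  have hAfin : {P : HOS K | P.under (𝓞 F) = p}.Finite :=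
    Set.finite_of_ncard_pos (by rw [hncg']; exact hg')
  have hBfin : {q : HOS k | q.under (𝓞 F) = p}.Finite :=
    Set.finite_of_ncard_pos (by rw [hncg]; exact hg)
  have hcount : ∀ m : ℕ, (∀ q : HOS k, q.under (𝓞 F) = p →
      {R : HOS K | R.under (𝓞 k) = q}.ncard = m) → g' = m * g := by
    intro m hm
    rw [← hncg', ← hncg, Set.ncard_eq_toFinset_card _ hAfin, Set.ncard_eq_toFinset_card _ hBfin]
    rw [Finset.card_eq_sum_card_fiberwise (f := fun P : HOS K => P.under (𝓞 k))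
      (t := hBfin.toFinset)]
    · rw [Finset.sum_congr rfl (g := fun _ => m), Finset.sum_const, smul_eq_mul, mul_comm]
      intro q hq1
      have hq2 : q.under (𝓞 F) = p := by
        rw [Set.Finite.mem_toFinset] at hq1
        exact hq1
      rw [← hm q hq2, ← Set.ncard_coe_finset]
      congr 1
      ext R
      rw [Finset.mem_coe, Finset.mem_filter, Set.Finite.mem_toFinset]
      constructor
      · rintro ⟨-, h⟩
        exact h
      · intro h
        have h' : R.under (𝓞 k) = q := h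
        refine ⟨?_, h⟩
        change R.under (𝓞 F) = p
        rw [← hunder, h', hq2]
    · intro P hP
      rw [Finset.mem_coe, Set.Finite.mem_toFinset] at hP ⊢
      change (P.under (𝓞 k)).under (𝓞 F) = p
      rw [hunder]
      exact hP
  -- the identity
  have hprod : ∀ X : ℂ, (∏ χ ∈ odd c, (1 - chv χ p * X)) * (1 - X ^ f) ^ g = (1 - X ^ f') ^ g' := by
    intro X
    rw [← hloc' X, ← hloc X, ← Finset.prod_filter_mul_prod_filter_not Finset.univ
      (fun χ : (K ≃ₐ[F] K) →* ℂˣ => χ c = -1)]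
    congr 1
    rw [TOW_even F k K c hc hck (fun χ => 1 - chv χ p * X)]
    refine Finset.prod_congr rfl fun ψ _ => ?_
    rw [(hINF F k K ψ p).2]
  have hfinal : ∀ τ : ℤ, (∀ X : ℂ, (1 - (τ : ℂ) * X ^ f) ^ g * (1 - X ^ f) ^ g = (1 - X ^ f') ^ g') →
      ∀ X : ℂ, ∏ χ ∈ odd c, (1 - chv χ p * X) = (1 - (τ : ℂ) * X ^ f) ^ g := by
    intro τ hτ X
    let A : Polynomial ℂ := ∏ χ ∈ odd c, (1 - Polynomial.C (chv χ p) * Polynomial.X)
    let B : Polynomial ℂ := (1 - Polynomial.C (τ : ℂ) * Polynomial.X ^ f) ^ g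
    let T : Polynomial ℂ := (1 - Polynomial.X ^ f) ^ g
    have hA : ∀ Y : ℂ, A.eval Y = ∏ χ ∈ odd c, (1 - chv χ p * Y) := by
      intro Y
      simp only [A, Polynomial.eval_prod, Polynomial.eval_sub, Polynomial.eval_one,
        Polynomial.eval_mul, Polynomial.eval_C, Polynomial.eval_X]
    have hB : ∀ Y : ℂ, B.eval Y = (1 - (τ : ℂ) * Y ^ f) ^ g := by
      intro Y
      simp only [B, Polynomial.eval_pow, Polynomial.eval_sub, Polynomial.eval_one,
        Polynomial.eval_mul, Polynomial.eval_C, Polynomial.eval_X]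
    have hTe : ∀ Y : ℂ, T.eval Y = (1 - Y ^ f) ^ g := by
      intro Y
      simp only [T, Polynomial.eval_pow, Polynomial.eval_sub, Polynomial.eval_one,
        Polynomial.eval_X]
    have hT0 : T ≠ 0 := by
      intro h
      have h1 := hTe 0
      rw [h, Polynomial.eval_zero, zero_pow hf.ne', sub_zero, one_pow] at h1
      exact zero_ne_one h1
    have hAB : A * T = B * T := by
      apply Polynomial.funext
      intro Y
      rw [Polynomial.eval_mul, Polynomial.eval_mul, hA, hB, hTe, hprod, hτ]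
    have hAB' := mul_right_cancel₀ hT0 hAB
    rw [← hA, ← hB, hAB']
  obtain ⟨P₀, hP₀, h₀⟩ := hq q₀ hq₀
  rcases h₀ with ⟨h1, h2, h3, h4⟩ | ⟨h1, h2, h3, h4⟩ | ⟨h1, h2, h3, h4⟩
  · -- split
    have hall : ∀ q : HOS k, q.under (𝓞 F) = p → ty K q = 1 ∧
        {R : HOS K | R.under (𝓞 k) = q}.ncard = 2 := by
      intro q hqp
      obtain ⟨P, hP, h⟩ := hq q hqp
      rcases h with ⟨a1, -, -, a4⟩ | ⟨-, a2, -, -⟩ | ⟨-, a2, -, -⟩
      · exact ⟨a1, a4⟩
      · exact absurd (hfix P P₀ hP hP₀ a2) h2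
      · exact absurd (hfix P P₀ hP hP₀ a2) h2
    refine ⟨1, Or.inl rfl, fun q hqp => (hall q hqp).1, hfinal 1 ?_⟩
    intro X
    rw [h3, hcount 2 (fun q hqp => (hall q hqp).2), Int.cast_one, one_mul, ← pow_add]
    congr 1
    ring
  · -- inert
    have hall : ∀ q : HOS k, q.under (𝓞 F) = p → ty K q = -1 ∧
        {R : HOS K | R.under (𝓞 k) = q}.ncard = 1 := by
      intro q hqp
      obtain ⟨P, hP, h⟩ := hq q hqp
      rcases h with ⟨-, -, a3, -⟩ | ⟨a1, -, -, a4⟩ | ⟨-, -, a3, -⟩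
      · omega
      · exact ⟨a1, a4⟩
      · omega
    refine ⟨-1, Or.inr (Or.inl rfl), fun q hqp => (hall q hqp).1, hfinal (-1) ?_⟩
    intro X
    rw [h3, hcount 1 (fun q hqp => (hall q hqp).2), one_mul, ← mul_pow]
    congr 1
    rw [mul_comm 2 f, pow_mul]
    push_cast
    ring
  · -- ramified
    have hall : ∀ q : HOS k, q.under (𝓞 F) = p → ty K q = 0 ∧
        {R : HOS K | R.under (𝓞 k) = q}.ncard = 1 := by
      intro q hqp
      obtain ⟨P, hP, h⟩ := hq q hqp
      rcases h with ⟨-, a2, -, -⟩ | ⟨-, -, a3, -⟩ | ⟨a1, -, -, a4⟩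
      · exact absurd (hfix P₀ P hP₀ hP h2) a2
      · omega
      · exact ⟨a1, a4⟩
    refine ⟨0, Or.inr (Or.inr rfl), fun q hqp => (hall q hqp).1, hfinal 0 ?_⟩
    intro X
    rw [h3, hcount 1 (fun q hqp => (hall q hqp).2), one_mul, Int.cast_zero, zero_mul, sub_zero,
      one_pow, one_mul]

end Pool.Agent.RB
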